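import Pool.Agent.Helper25.GF.Goals

/-!
# Project GF (MP_766b49_co): packet DET
-/

set_option autoImplicit false

namespace Pool.Agent.Helper82.GF

open Finset Pool.Agent.Helper25.GF

theorem harm (n : ℕ) : ∑ t ∈ Ico 2 (n + 2), (1 : ℝ) / t ≤ Real.log (n + 1) := by
  induction n with
  | zero => simp
  | succ n ih =>
    rw [show n + 1 + 2 = (n + 2) + 1 by ring, Finset.sum_Ico_succ_top (by omega)]
    have h1 : (0 : ℝ) < n + 1 := by positivity
    have h2 : (0 : ℝ) < n + 2 := by positivity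
    have h3 := Real.one_sub_inv_le_log_of_pos (div_pos h2 h1)
    rw [Real.log_div h2.ne' h1.ne'] at h3
    have h4 : 1 - (((n : ℝ) + 2) / (n + 1))⁻¹ = 1 / ((n + 2 : ℕ) : ℝ) := by
      push_cast
      field_simp
      ring
    rw [h4] at h3
    have h5 : ((n + 1 : ℕ) : ℝ) + 1 = n + 2 := by push_cast; ring
    rw [h5]
    linarith

theorem harm' (N : ℕ) (hN : 1 ≤ N) : ∑ t ∈ Ico 2 N, (1 : ℝ) / t ≤ Real.log N := by
  rcases Nat.lt_or_ge N 2 with h | h
  · have h1 : N = 1 := by omega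
    subst h1
    simp
  · obtain ⟨n, rfl⟩ : ∃ n, N = n + 2 := ⟨N - 2, by omega⟩
    refine (harm n).trans ?_
    apply Real.log_le_log (by positivity)
    push_cast
    linarith

theorem det (h1 : Pool.Agent.Helper25.GF.ENB) (h2 : Pool.Agent.Helper25.GF.ABA)
    (h3 : Pool.Agent.Helper25.GF.ABB) (h4 : Pool.Agent.Helper25.GF.ABC) :
    Pool.Agent.Helper25.GF.DET := by
  intro I c η T₀ N hc h0 h01 hηc hI hN h
  have hE := h1 I c η T₀ N h0 h01 hηc h
  have hA := h2 I N c T₀ hI hN hc.le (Nat.cast_nonneg _) hE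
  have hB := h3 I N hI
  have hC := h4 I N hI
  have hY : ∑ t ∈ Ico 2 N, (kk I t : ℝ) / (t : ℝ) ^ 2 ≤
      c / 2 * ∑ t ∈ Ico 2 N, (1 : ℝ) / t +
        1 / (2 * c) * ∑ t ∈ Ico 2 N, (kk I t : ℝ) ^ 2 / (t : ℝ) ^ 3 := by
    rw [Finset.mul_sum, Finset.mul_sum, ← Finset.sum_add_distrib]
    refine Finset.sum_le_sum fun t ht => ?_
    have ht0 : (0 : ℝ) < t := by
      have := (Finset.mem_Ico.1 ht).1
      exact_mod_cast (by omega : 0 < t)
    have e : c / 2 * (1 / (t : ℝ)) + 1 / (2 * c) * ((kk I t : ℝ) ^ 2 / (t : ℝ) ^ 3) -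
        (kk I t : ℝ) / (t : ℝ) ^ 2 = (c * t - kk I t) ^ 2 / (2 * c * t ^ 3) := by
      field_simp
      ring
    have : 0 ≤ (c * t - kk I t) ^ 2 / (2 * c * (t : ℝ) ^ 3) := by positivity
    linarith
  have hH := harm' N hN
  set Y := ∑ t ∈ Ico 2 N, (kk I t : ℝ) / (t : ℝ) ^ 2
  set Z := ∑ t ∈ Ico 2 N, (kk I t : ℝ) ^ 2 / (t : ℝ) ^ 3
  have h5 : c / 2 * ∑ t ∈ Ico 2 N, (1 : ℝ) / t ≤ c / 2 * Real.log N :=
    mul_le_mul_of_nonneg_left hH (by positivity)
  have h6 : Z ≤ c * (Y + 4) + T₀ + 3 := by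
    have : c * (Wt I + 1) ≤ c * (Y + 4) := mul_le_mul_of_nonneg_left (by linarith) hc.le
    linarith
  have h7 : 1 / (2 * c) * Z ≤ Y / 2 + 2 + (T₀ + 3) / c / 2 := by
    have : 1 / (2 * c) * Z ≤ 1 / (2 * c) * (c * (Y + 4) + T₀ + 3) :=
      mul_le_mul_of_nonneg_left h6 (by positivity)
    refine this.trans (le_of_eq ?_)
    field_simp
    ring
  linarith

end Pool.Agent.Helper82.GF
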